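import Pool.Agent.H14.PD.Stmts

/-! Project PD (MP_822040_al): modules XIN, XCM, XET, XPA, XCV, XCP. -/

set_option autoImplicit false

namespace Pool.Agent.H14.PD

theorem pd_xb_pe {P Q : Type} (Z : Sz P Q) (p : P) (b : Bool) :
    (∃ c, pe Z p b = Nd.p p c) ∧ nrm Z (pe Z p b) := by
  unfold pe
  by_cases h : p = Z.ps
  · rw [if_pos h]
    refine ⟨⟨false, rfl⟩, ?_⟩
    intro c hc
    injection hc with h1 h2
    exact h2.symm
  · rw [if_neg h]
    refine ⟨⟨b, rfl⟩, ?_⟩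
    intro c hc
    injection hc with h1 h2
    exact absurd h1 h

theorem pd_xb_peq {P Q : Type} (Z : Sz P Q) (p : P) (b : Bool) (q : Q) (c : Bool) :
    pe Z p b ≠ Nd.q q c := by
  obtain ⟨d, hd⟩ := (pd_xb_pe Z p b).1
  rw [hd]; intro h; cases h

theorem pd_xb_oe1 {P Q : Type} (Z : Sz P Q) (p : P) (q : Q) (b : Bool) :
    oe Z (Nd.q q b) p q b = pe Z p b := by
  unfold oe; rw [if_pos rfl]

theorem pd_xb_oe2 {P Q : Type} (Z : Sz P Q) (p : P) (q : Q) (b : Bool) :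
    oe Z (pe Z p b) p q b = Nd.q q b := by
  unfold oe; rw [if_neg (pd_xb_peq Z p b q b)]

theorem pd_xb_same {P Q : Type} (Z : Sz P Q) (x : Xv P Q) (s : Xs P Q) :
    xact Z x s s.1 = oe Z (x s.1) s.2.1 s.2.2.1 s.2.2.2 := by
  unfold xact; exact Function.update_self _ _ _

theorem pd_xb_ne {P Q : Type} (Z : Sz P Q) (x : Xv P Q) (s : Xs P Q) (i : Fin 3) (h : i ≠ s.1) :
    xact Z x s i = x i := by
  unfold xact; exact Function.update_of_ne h _ _

/-- two cases for an available label -/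
theorem pd_xb_cases {P Q : Type} (Z : Sz P Q) (x : Xv P Q) (s : Xs P Q) (h : xlab Z x s) :
    (x s.1 = Nd.q s.2.2.1 s.2.2.2 ∧ xact Z x s s.1 = pe Z s.2.1 s.2.2.2) ∨
    (x s.1 = pe Z s.2.1 s.2.2.2 ∧ xact Z x s s.1 = Nd.q s.2.2.1 s.2.2.2) := by
  rcases h.2.2 with h1 | h1
  · left; refine ⟨h1, ?_⟩; rw [pd_xb_same, h1, pd_xb_oe1]
  · right; refine ⟨h1, ?_⟩; rw [pd_xb_same, h1, pd_xb_oe2]

theorem pd_xb_fin (i : Fin 3) : i + 1 ≠ i ∧ i + 2 ≠ i ∧ i + 2 ≠ i + 1 ∧ i + 1 + 1 = i + 2 ∧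
    i + 2 + 1 = i ∧ i + 1 + 2 = i ∧ i + 2 + 2 = i + 1 ∧ ∀ j : Fin 3, j = i ∨ j = i + 1 ∨ j = i + 2 := by
  revert i; decide

theorem pd_xin : XIN := by
  intro P Q Z x s h
  have hinv : xact Z (xact Z x s) s = x := by
    funext i
    by_cases hi : i = s.1
    · subst hi
      rw [pd_xb_same]
      rcases pd_xb_cases Z x s h with ⟨h1, h2⟩ | ⟨h1, h2⟩
      · rw [h2, h1, pd_xb_oe2]
      · rw [h2, h1, pd_xb_oe1]
    · rw [pd_xb_ne Z _ s i hi, pd_xb_ne Z _ s i hi]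
  refine ⟨⟨h.2.1, ?_, ?_⟩, hinv⟩
  · rw [hinv]; exact h.1
  · rcases pd_xb_cases Z x s h with ⟨h1, h2⟩ | ⟨h1, h2⟩
    · right; exact h2
    · left; exact h2

theorem pd_xcm : XCM := by
  intro P Q Z
  have h4 : ∀ s t : Xs P Q, s.1 = t.1 → ¬ xcm Z s t := by
    intro s t hst hc
    rcases hc with ⟨h1, _⟩ | ⟨h1, _⟩
    · rw [hst] at h1; exact (pd_xb_fin t.1).1 h1.symm
    · rw [hst] at h1; exact (pd_xb_fin t.1).1 h1.symm
  refine ⟨?_, fun s => h4 s s rfl, ?_, h4⟩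
  · intro s t h
    rcases h with h | h
    · right; exact h
    · left; exact h
  · intro s t hs ht
    exact h4 s t (by unfold xbig at hs ht; rw [hs, ht])

theorem pd_xb_cmne {P Q : Type} (Z : Sz P Q) (s t : Xs P Q) (h : xcm Z s t) : s.1 ≠ t.1 :=
  fun h1 => (pd_xcm P Q Z).2.2.2 s t h1 h

open Classical in
theorem pd_xet : XET := by
  intro P Q Z m
  have hpm : ∀ (x : Xv P Q) (s : Xs P Q),
      ((if Z.bp s.2.1 = Z.bq s.2.2.1 then (1 : ℤ) else -1) *
        (if x s.1 = Nd.q s.2.2.1 s.2.2.2 then -1 else 1)) = 1 ∨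
      ((if Z.bp s.2.1 = Z.bq s.2.2.1 then (1 : ℤ) else -1) *
        (if x s.1 = Nd.q s.2.2.1 s.2.2.2 then -1 else 1)) = -1 := by
    intro x s
    by_cases h1 : Z.bp s.2.1 = Z.bq s.2.2.1
    · by_cases h2 : x s.1 = Nd.q s.2.2.1 s.2.2.2
      · right; rw [if_pos h1, if_pos h2]; norm_num
      · left; rw [if_pos h1, if_neg h2]; norm_num
    · by_cases h2 : x s.1 = Nd.q s.2.2.1 s.2.2.2
      · left; rw [if_neg h1, if_pos h2]; norm_num
      · right; rw [if_neg h1, if_neg h2]; norm_num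
  refine ⟨?_, ?_, ?_, ?_⟩
  · intro x s h
    unfold xeta
    rcases pd_xb_cases Z x s h with ⟨h1, h2⟩ | ⟨h1, h2⟩
    · rw [h2, if_neg (pd_xb_peq Z _ _ _ _), h1, if_pos rfl]; ring
    · rw [h2, if_pos rfl, h1, if_neg (pd_xb_peq Z _ _ _ _)]; ring
  · intro x s t hc hs ht
    unfold xeta
    rw [pd_xb_ne Z x t s.1 (pd_xb_cmne Z s t hc)]
  · intro x s _ hb
    unfold xeta
    unfold xbig at hb
    rw [if_pos hb]
    rcases hpm x s with h | h
    · left; rw [h, mul_one]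
    · right; rw [h]; ring
  · intro x s _ hb
    unfold xeta
    unfold xbig at hb
    rw [if_neg hb, one_mul]
    exact hpm x s

theorem pd_xpa : XPA := by
  intro P Q Z x s t hst hs ht hn
  left
  refine ⟨hst, ?_⟩
  have hne : t.1 ≠ s.1 := by rw [hst]; exact (pd_xb_fin s.1).1
  obtain ⟨c, hc⟩ := (pd_xb_pe Z s.2.1 s.2.2.2).1
  obtain ⟨d, hd⟩ := (pd_xb_pe Z t.2.1 t.2.2.2).1
  rcases pd_xb_cases Z x s hs with ⟨h1, h2⟩ | ⟨h1, h2⟩
  · rcases pd_xb_cases Z x t ht with ⟨h3, h4⟩ | ⟨h3, h4⟩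
    · have := hs.2.1.2 s.1 s.2.1 c t.2.2.1 t.2.2.2 (by rw [h2, hc])
        (by rw [← hst, pd_xb_ne Z x s t.1 hne, h3])
      exact this
    · exact absurd ⟨⟨_, _, h1⟩, ⟨_, _, h3.trans hd⟩⟩ hn
  · rcases pd_xb_cases Z x t ht with ⟨h3, h4⟩ | ⟨h3, h4⟩
    · exact hs.1.2 s.1 s.2.1 c t.2.2.1 t.2.2.2 (by rw [h1, hc]) (by rw [← hst, h3])
    · exact ht.2.1.2 s.1 s.2.1 c t.2.2.1 t.2.2.2
        (by rw [pd_xb_ne Z x t s.1 hne.symm, h1, hc]) (by rw [← hst, h4])

theorem pd_xcv : XCV := by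
  intro P Q Z x s t hc hs ht
  have hne : s.1 ≠ t.1 := pd_xb_cmne Z s t hc
  have hxt : xact Z x s t.1 = x t.1 := pd_xb_ne Z x s t.1 hne.symm
  have h3 : x t.1 = Nd.q t.2.2.1 t.2.2.2 ∨ x t.1 = pe Z t.2.1 t.2.2.2 := by
    rw [← hxt]; exact ht.2.2
  -- value of the coordinate t.1 after t
  have hval : xact Z (xact Z x s) t t.1 = xact Z x t t.1 := by
    rw [pd_xb_same, pd_xb_same, hxt]
  refine ⟨hs.1, ⟨?_, ?_⟩, h3⟩
  · intro i
    by_cases hi : i = t.1
    · subst hi; rw [← hval]; exact ht.2.1.1 t.1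
    · rw [pd_xb_ne Z x t i hi]; exact hs.1.1 i
  · intro i p b q c h1 h2
    have hcase : x t.1 = Nd.q t.2.2.1 t.2.2.2 ∧ xact Z x t t.1 = pe Z t.2.1 t.2.2.2 ∨
        x t.1 = pe Z t.2.1 t.2.2.2 ∧ xact Z x t t.1 = Nd.q t.2.2.1 t.2.2.2 := by
      rcases h3 with h | h
      · left; refine ⟨h, ?_⟩; rw [pd_xb_same, h, pd_xb_oe1]
      · right; refine ⟨h, ?_⟩; rw [pd_xb_same, h, pd_xb_oe2]
    by_cases hi : i = t.1
    · -- first coordinate is t
      subst hi
      have hi1 : t.1 + 1 ≠ t.1 := (pd_xb_fin t.1).1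
      rw [pd_xb_ne Z x t _ hi1] at h2
      by_cases hi2 : t.1 + 1 = s.1
      · -- then xcm gives adj t.P s.Q
        have hadj : Z.adj t.2.1 s.2.2.1 := by
          rcases hc with ⟨e1, _⟩ | ⟨_, e2⟩
          · exfalso
            rw [← hi2] at e1
            have := (pd_xb_fin t.1).2.1
            rw [← (pd_xb_fin t.1).2.2.2.1] at this
            exact this e1.symm
          · exact e2
        rcases hcase with ⟨e1, e2⟩ | ⟨e1, e2⟩
        · obtain ⟨d, hd⟩ := (pd_xb_pe Z t.2.1 t.2.2.2).1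
          rw [e2, hd] at h1
          injection h1 with h1a h1b
          rw [hi2] at h2
          rcases hs.2.2 with h | h
          · rw [h] at h2
            injection h2 with h2a h2b
            rw [← h1a, ← h2a]; exact hadj
          · exact absurd (h.symm.trans h2) (pd_xb_peq Z _ _ _ _)
        · rw [e2] at h1; cases h1
      · refine ht.2.1.2 t.1 p b q c ?_ ?_
        · rw [hval, h1]
        · rw [pd_xb_ne Z _ t _ hi1, pd_xb_ne Z x s _ hi2, h2]
    · rw [pd_xb_ne Z x t i hi] at h1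
      by_cases hi1 : i + 1 = t.1
      · by_cases hi2 : i = s.1
        · subst hi2
          have hadj : Z.adj s.2.1 t.2.2.1 := by
            rcases hc with ⟨_, e2⟩ | ⟨e1, _⟩
            · exact e2
            · exfalso
              rw [← hi1, (pd_xb_fin s.1).2.2.2.1] at e1
              exact (pd_xb_fin s.1).2.1 e1.symm
          rw [hi1] at h2
          rcases hcase with ⟨e1, e2⟩ | ⟨e1, e2⟩
          · exact absurd (e2.symm.trans h2) (pd_xb_peq Z _ _ _ _)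
          · rw [e2] at h2
            injection h2 with h2a h2b
            rcases hs.2.2 with h | h
            · rw [h] at h1; cases h1
            · obtain ⟨d, hd⟩ := (pd_xb_pe Z s.2.1 s.2.2.2).1
              rw [h, hd] at h1
              injection h1 with h1a h1b
              rw [← h1a, ← h2a]; exact hadj
        · refine ht.2.1.2 i p b q c ?_ ?_
          · rw [pd_xb_ne Z _ t i hi, pd_xb_ne Z x s i hi2, h1]
          · rw [hi1, hval, ← hi1, h2]
      · rw [pd_xb_ne Z x t _ hi1] at h2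
        exact hs.1.2 i p b q c h1 h2

theorem pd_xcp : XCP := by
  intro P Q Z
  refine ⟨?_, ?_, ?_, ?_⟩
  · intro b x s hcp _ hb
    have h0 : xact Z x s 0 = x 0 := pd_xb_ne Z x s 0 (fun h => hb h.symm)
    unfold xcp xY
    rw [h0]
    exact hcp
  · intro b x s _ hl hb hside
    unfold xbig at hb
    have hc := pd_xb_cases Z x s hl
    rw [hb] at hc
    unfold xcp xY
    rcases hc with ⟨_, h2⟩ | ⟨_, h2⟩
    · rw [h2, hside]
      unfold pe
      by_cases h : s.2.1 = Z.ps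
      · left; rw [if_pos h, h]; exact ⟨_, rfl⟩
      · right; left; rw [if_neg h]; exact ⟨_, rfl⟩
    · right; right; rw [h2, hside]; exact ⟨_, rfl⟩
  · intro b
    left
    exact ⟨false, by simp [xo]⟩
  · exact ⟨false, by simp [xo]⟩

end Pool.Agent.H14.PD
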